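import Pool.Agent.Q60.MU.Fams

/-! The `μ`-invariant of totally real fields, ramification allowed at `p`: detection by subfields,
and the reduction to totally real fields `ℚ(v)` generated by a vector in a simple representation
over `𝔽_p`. -/

set_option autoImplicit false

namespace Pool.Agent.Results.MP_4e64b4_nt.DetectingSubfields

open Pool.Agent.Q60.MU IntermediateField

theorem result (p : ℕ) [Fact p.Prime] (R : ℕ → IntermediateField ℚ Qb)
    (hR : ∀ m, FiniteDimensional ℚ (R m)) (hRn : ∀ m, IsGalois ℚ (R m)) (hd : FinDec R) :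
    -- (A) detecting subfields of a Galois extension
    (∀ N : IntermediateField ℚ Qb, FiniteDimensional ℚ N → IsGalois ℚ N →
      ∀ 𝓔 : Set (IntermediateField ℚ Qb), Detecting p N 𝓔 →
      (∀ E ∈ 𝓔, MuZeroFor (awayGroup p) p R E) →
      ∀ F : IntermediateField ℚ Qb, F ≤ N → MuZeroFor (awayGroup p) p R F) ∧
    -- (B) the reduction for totally real fields to the fields generated by a vector
    ((∀ F : IntermediateField ℚ Qb, FiniteDimensional ℚ F → F ≤ Qtr →
        MuZeroFor (awayGroup p) p R F) ↔
      ∀ F : IntermediateField ℚ Qb, IsVectorFieldIn p (fun N => N ≤ Qtr) F →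
        ¬ p ∣ Module.finrank ℚ F → MuZeroFor (awayGroup p) p R F) :=
  ⟨fun N hN hNn 𝓔 hdet hmu F hF =>
    field_detectFor p (away_conj p) (away_tame p) R hR hRn hd N hN hNn 𝓔 hdet hmu F hF,
    field_reductionFor p (away_conj p) (away_tame p) R hR hRn hd Qtr Qtr_normal⟩

end Pool.Agent.Results.MP_4e64b4_nt.DetectingSubfields
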