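import Pool.Agent.Q60.MU.Explicit2

/-! An explicit two-sided comparison, for a Galois extension `N/F` of number fields and a detecting
family of intermediate fields, of the degrees of the maximal abelian extensions of exponent `p`
unramified outside `p`. -/

set_option autoImplicit false

namespace Pool.Agent.Results.MP_4e64b4_nt.ExplicitBound

open Pool.Agent.Q60.MU

theorem result (p : ℕ) [Fact p.Prime] (F N : IntermediateField ℚ Qb) (n : ℕ)
    (hG : GaloisOfDegree F N n) (𝓔 : Finset (IntermediateField ℚ Qb))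
    (hdet : DetectingForms p F N 𝓔) (t : ℕ) (ht : RamLeFor (awayGroup p) F N t) (C : ℕ) :
    ((∀ E ∈ 𝓔, DegLeFor (awayGroup p) p E C) →
      DegLeFor (awayGroup p) p N ((n ^ (n ^ 3 + n * t + 2) * C) ^ (n * 𝓔.card))) ∧
    (DegLeFor (awayGroup p) p N C → ∀ E : IntermediateField ℚ Qb, F ≤ E → E ≤ N →
      DegLeFor (awayGroup p) p E (C * n)) :=
  explicitFor p (away_conj p) F N hG 𝓔 hdet ht C

end Pool.Agent.Results.MP_4e64b4_nt.ExplicitBound
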