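import Pool.Agent.Q60.MU.Involutions

/-!
# Vanishing of `μ` for the `p`-ramified Iwasawa module: reduction to the fixed fields of involutions

`R 0, R 1, ...` is the tower of the layers of the cyclotomic `ℤ_p`-extension of `ℚ` (any tower of
finite Galois extensions of `ℚ` with the property `FinDec` is allowed).
-/

set_option autoImplicit false

namespace Pool.Agent.Results.MP_4e64b4_nt.Involutions

open Pool.Agent.Q60.MU IntermediateField

theorem result (p : ℕ) [Fact p.Prime] (R : ℕ → IntermediateField ℚ Qb)
    (hR : ∀ m, FiniteDimensional ℚ (R m)) (hRn : ∀ m, IsGalois ℚ (R m)) (hd : FinDec R)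
    (N : IntermediateField ℚ Qb) (hN : FiniteDimensional ℚ N) (hNn : IsGalois ℚ N) :
    MuZeroFor (awayGroup p) p R N ↔
      (∀ s ∈ invSet N, s ∉ N.fixingSubgroup → MuZeroFor (awayGroup p) p R (fixedPart s N)) ∧
      MuZeroFor (awayGroup p) p R (centralPart N) := by
  have key := fun (𝓔 : Set (IntermediateField ℚ Qb)) =>
    field_detectFor p (away_conj p) (away_tame p) R hR hRn hd N hN hNn 𝓔
  constructor
  · intro h
    have h1 := key {N} (detecting_self p N) (fun E hE => by
      rw [Set.mem_singleton_iff.1 hE]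
      exact h)
    exact ⟨fun s _ _ => h1 _ inf_le_left, h1 _ inf_le_left⟩
  · rintro ⟨h1, h2⟩
    refine key _ (detecting_involutions p N hN hNn) ?_ N le_rfl
    rintro E (⟨s, hs1, hs2, rfl⟩ | rfl)
    · exact h1 s hs1 hs2
    · exact h2

end Pool.Agent.Results.MP_4e64b4_nt.Involutions
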