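import Pool.Agent.Q49.MU.Basic

/-!
# The μ-invariant for totally real fields: exact reductions

Fix an odd prime `p`. For a totally real field `E` let `X E` say that `X_Σ` is finitely generated over `ℤ_p`, and
for a CM field `F` let `M F` say that the minus part of the inverse limit of the `p`-class groups in the
cyclotomic `ℤ_p`-extension of `F` is finitely generated over `ℤ_p`.

**Theorem.** Let `E₁` be a totally real field. The following are equivalent.

1. Q1 for `p`: `X E` holds for all totally real number fields `E`.
2. `X E` holds for all totally real finite extensions `E` of `E₁` of degree prime to `p`.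
3. `M F` holds for all CM fields `F`.
4. `M F` holds for all CM fields `F` which contain the `p`-th roots of unity and are finite extensions of
   `E₁` of degree prime to `p`.

Known facts (`IsSetting`): subfields (restriction maps have finite cokernel); Galois extensions of
`p`-power degree (Iwasawa 1973; the module `X_Σ` for `Σ` containing the ramified places has coinvariants
pseudo-isomorphic to the module of the subfield); two totally real fields are contained in a totally real
field which is Galois over the second one; Kummer duality: for totally real `E` the field `F = E(μ_p)` is CM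
of degree prime to `p` over `E`, and `M F` implies `X E`, and for a CM field `F` and the maximal real subfield
`E` of `F(μ_p)`, `X E` implies `M F`.
-/

set_option autoImplicit false

namespace Pool.Agent.Results.MP_4e64b4_nt.PrimeToP

open Pool.Agent.Q49.MU NumberField

/-- The known facts. -/
structure IsSetting (p : ℕ) (X M : (F : Type) → [Field F] → Prop) (E₁ : Type) [Field E₁] :
    Prop where
  mono : ∀ (F L : Type) [Field F] [Field L] [NumberField F] [NumberField L] [Algebra F L],
    IsTotallyReal L → X L → X F
  pext : ∀ (F L : Type) [Field F] [Field L] [NumberField F] [NumberField L] [Algebra E₁ F]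
    [Algebra F L], IsGalois F L → IsPGroup p (L ≃ₐ[F] L) → IsTotallyReal L → X F → X L
  /-- Galois closures -/
  closed : ∀ (F K : Type) [Field F] [Field K] [NumberField F] [NumberField K], IsTotallyReal F →
    IsTotallyReal K → ∃ (L : Type) (_ : Field L) (_ : NumberField L) (_ : Algebra F L)
      (_ : Algebra K L), IsGalois K L ∧ IsTotallyReal L
  /-- Kummer duality for `F = E(μ_p)` -/
  kummer : ∀ (E : Type) [Field E] [NumberField E], IsTotallyReal E →
    ∃ (F : Type) (_ : Field F) (_ : NumberField F) (_ : Algebra E F), IsCMField F ∧
      (∃ ζ : F, IsPrimitiveRoot ζ p) ∧ ¬ p ∣ Module.finrank E F ∧ (M F → X E)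
  /-- Kummer duality for CM fields -/
  kummer' : ∀ (F : Type) [Field F] [NumberField F], IsCMField F →
    ∃ (E : Type) (_ : Field E) (_ : NumberField E), IsTotallyReal E ∧ (X E → M F)

/-- **The μ-invariant for totally real fields: exact reductions.** See the explanations above. -/
theorem result (p : ℕ) [Fact p.Prime] (X M : (F : Type) → [Field F] → Prop) (E₁ : Type) [Field E₁]
    [NumberField E₁] (hE : IsTotallyReal E₁) (h : IsSetting p X M E₁) : List.TFAE [
      ∀ (E : Type) [Field E] [NumberField E], IsTotallyReal E → X E,
      ∀ (E : Type) [Field E] [NumberField E] [Algebra E₁ E], IsTotallyReal E →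
        ¬ p ∣ Module.finrank E₁ E → X E,
      ∀ (F : Type) [Field F] [NumberField F], IsCMField F → M F,
      ∀ (F : Type) [Field F] [NumberField F] [Algebra E₁ F], IsCMField F →
        (∃ ζ : F, IsPrimitiveRoot ζ p) → ¬ p ∣ Module.finrank E₁ F → M F] := by
  tfae_have 1 → 2 := fun h1 E _ _ _ hE _ => h1 E hE
  tfae_have 2 → 1 := fun h1 E _ _ hE' => of_prime_to_p_class p
    (C := fun F _ => ∀ [NumberField F], IsTotallyReal F) (X := X)
    (fun F L _ _ _ _ _ hL _ => by
      have := hL
      exact IsTotallyReal.of_algebra F L)
    (fun F K _ _ _ _ hF hK => by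
      obtain ⟨L, a1, a2, a3, a4, a5, a6⟩ := h.closed F K hF hK
      exact ⟨L, a1, a2, a3, a4, a5, fun {_} => a6⟩)
    (fun F L _ _ _ _ _ hL => h.mono F L hL) E₁ hE
    (fun F L _ _ _ _ _ _ a1 a2 a3 => h.pext F L a1 a2 a3)
    (fun K _ _ _ a1 a2 => h1 K a1 a2) E hE'
  tfae_have 1 → 3 := by
    intro h1 F _ _ hF
    obtain ⟨E, _, _, h2, h3⟩ := h.kummer' F hF
    exact h3 (h1 E h2)
  tfae_have 3 → 4 := fun h1 F _ _ _ hF _ _ => h1 F hF
  tfae_have 4 → 2 := by
    intro h1 E _ _ _ hE' hdvd
    obtain ⟨F, _, _, _, h2, h3, h4, h5⟩ := h.kummer E hE'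
    let _ : Algebra E₁ F := ((algebraMap E F).comp (algebraMap E₁ E)).toAlgebra
    have : IsScalarTower E₁ E F := IsScalarTower.of_algebraMap_eq fun x => rfl
    refine h5 (h1 F h2 h3 ?_)
    have h6 := Module.finrank_mul_finrank E₁ E F
    rw [← h6, Nat.Prime.dvd_mul (Fact.out : p.Prime)]
    exact fun h7 => h7.elim hdvd h4
  tfae_finish

end Pool.Agent.Results.MP_4e64b4_nt.PrimeToP
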